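import Pool.Agent.H58.CT.Targets

/-!
# Board ct_modules, module LNA: absorbing subuniverses of linked relations are linked
-/

set_option autoImplicit false

namespace Pool.Agent.H64.CT

open Pool.Agent.H58.CT

/-- (LNA) absorbing subuniverses of linked relations are linked. -/
theorem pf_LNA : T_LNA := by
  classical
  intro 𝒞 E A B _ _ _ R R' f g hf hg hAbs hL e he e' he'
  obtain ⟨-, -, hsub, I, hI, t, ht⟩ := hAbs
  have hfin : Fintype I := Fintype.ofFinite I
  have key : ∀ J : Finset I, Relation.ReflTransGen (Stp R' f g) e
      (Alg.int t (fun i => if i ∈ J then e' else e)) := by
    intro J
    induction J using Finset.induction_on with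
    | empty =>
      have h1 : Alg.int t (fun i : I => if i ∈ (∅ : Finset I) then e' else e) = e := by
        simp only [Finset.notMem_empty, if_false]
        exact Alg.idem t e
      rw [h1]
    | insert i J hi ih =>
      refine ih.trans ?_
      have hpath := hL e (hsub he) e' (hsub he')
      have h1 : Relation.ReflTransGen (Stp R' f g)
          (Alg.int t (fun j => if j ∈ J then e' else if j = i then e else e))
          (Alg.int t (fun j => if j ∈ J then e' else if j = i then e' else e)) := by
        refine Relation.ReflTransGen.lift
          (fun a => Alg.int t (fun j => if j ∈ J then e' else if j = i then a else e)) ?_ _ _ hpath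
        rintro a b ⟨ha, hb, hab⟩
        have hmem : ∀ c ∈ R,
            Alg.int t (fun j => if j ∈ J then e' else if j = i then c else e) ∈ R' := by
          intro c hc
          refine ht i _ (fun j => ?_) fun j hj => ?_
          · by_cases h1 : j ∈ J
            · simp only [h1, if_true]
              exact hsub he'
            · by_cases h2 : j = i
              · simp only [h2, if_true]
                rw [if_neg hi]
                exact hc
              · simp only [h1, if_false, h2]
                exact hsub he
          · by_cases h1 : j ∈ J
            · simp only [h1, if_true]
              exact he'
            · simp only [h1, if_false, hj]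
              exact he
        refine ⟨hmem a ha, hmem b hb, ?_⟩
        rcases hab with h | h
        · left
          rw [hf, hf]
          congr 1
          funext j
          by_cases h1 : j ∈ J
          · simp [h1]
          · by_cases h2 : j = i
            · simp [h2, hi, h]
            · simp [h1, h2]
        · right
          rw [hg, hg]
          congr 1
          funext j
          by_cases h1 : j ∈ J
          · simp [h1]
          · by_cases h2 : j = i
            · simp [h2, hi, h]
            · simp [h1, h2]
      have e1 : (fun j => if j ∈ J then e' else if j = i then e else e) =
          fun j => if j ∈ J then e' else e := by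
        funext j
        by_cases hj : j ∈ J <;> simp [hj]
      have e2 : (fun j => if j ∈ J then e' else if j = i then e' else e) =
          fun j => if j ∈ insert i J then e' else e := by
        funext j
        by_cases hj : j ∈ J
        · simp [hj]
        · by_cases hji : j = i
          · simp [hji]
          · simp [hj, hji]
      rw [e1, e2] at h1
      exact h1
  have h1 := key Finset.univ
  simp only [Finset.mem_univ, if_true] at h1
  rw [Alg.idem] at h1
  exact h1

end Pool.Agent.H64.CT
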